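import Pool.Agent.Helper88_MVD.EPNc

/-!
Squad MVD, row EPN: the pentagon.
-/

set_option autoImplicit false

namespace Pool.Agent.MVD.H88

open Pool.Agent.Helper14_MV Pool.Agent.Helper2_MV Pool.Agent.MVD

theorem exists_bound : ∀ T : List ℕ, ∃ m, ∀ a ∈ T, a < m := by
  intro T
  induction T with
  | nil => exact ⟨0, by simp⟩
  | cons a T ih =>
    obtain ⟨m, hm⟩ := ih
    refine ⟨a + m + 1, ?_⟩
    intro b hb
    rw [List.mem_cons] at hb
    rcases hb with rfl | hb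
    · omega
    · have := hm b hb
      omega

theorem filt (p : ℕ → Bool) (M N W : List ℕ) (φ : ℕ → List ℕ) :
    (M ++ (W.flatMap φ ++ N)).filter p =
      M.filter p ++ (W.flatMap (fun c => (φ c).filter p) ++ N.filter p) := by
  rw [List.filter_append, List.filter_append, List.filter_flatMap]

theorem exch {κ : ℕ → ℕ} {P Q X Y : List ℕ} {φ : ℕ → List ℕ} {a b : ℕ}
    (h : φ a ++ φ b = φ b ++ φ a) :
    (Wk κ P Q (X ++ a :: b :: Y)).flatMap φ = (Wk κ P Q (X ++ b :: a :: Y)).flatMap φ := by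
  have h1 : φ a ++ (φ b ++ Y.flatMap φ) = φ b ++ (φ a ++ Y.flatMap φ) := by
    rw [← List.append_assoc, h, List.append_assoc]
  rw [wk_eq, wk_eq]
  simp only [List.flatMap_append, List.flatMap_cons]
  rw [h1]

/-- the predicate which erases the new letters -/
def qq (r1 r2 h z : ℕ) (c : ℕ) : Bool :=
  decide (c ≠ 12 ∧ c ≠ 3 ∧ c ≠ 6 ∧ c ≠ 3 * h + 1 ∧ c ≠ 3 * z + 1 ∧ c ≠ 3 * (r1 + 1) + 2 ∧
    c ≠ 3 * (r2 + 1) + 2 ∧ c ≠ 3 * (h + 1) + 2 ∧ c ≠ 3 * (z + 1) + 2)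

theorem pk_filter {s1 s2 r1 r2 h z : ℕ} (T : List ℕ)
    (hT : ∀ i ∈ T, i ≠ s1 ∧ i ≠ s2 ∧ i ≠ r1 ∧ i ≠ r2 ∧ i ≠ h ∧ i ≠ z) :
    (pk (k2 s1 s2 r1 r2) T).filter (qq r1 r2 h z) = pk (kx 9 s1 s2) T := by
  induction T with
  | nil => rfl
  | cons i T ih =>
    obtain ⟨g1, g2, g3, g4, g5, g6⟩ := hT i (by simp)
    have e1 : k2 s1 s2 r1 r2 i = 3 * i + 1 := by
      unfold k2
      rw [if_neg (by tauto), if_neg (by tauto)]
    have e2 : kx 9 s1 s2 i = 3 * i + 1 := by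
      unfold kx
      rw [if_neg (by tauto)]
    have e3 : qq r1 r2 h z (3 * i + 1) = true := by
      unfold qq
      rw [decide_eq_true_eq]
      omega
    have e4 : qq r1 r2 h z (3 * (i + 1) + 2) = true := by
      unfold qq
      rw [decide_eq_true_eq]
      omega
    rw [pk_cons, pk_cons, e1, e2, List.filter_cons_of_pos e3, List.filter_cons_of_pos e4,
      ih (fun j hj => hT j (by simp [hj]))]

theorem word_filter {s1 s2 r1 r2 h z : ℕ} {P1 P2 P3 Q α : List ℕ}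
    (H : Cx s1 s2 r1 r2 h z P1 P2 P3 Q α) (L : List ℕ) :
    (Wk (k2 s1 s2 r1 r2) (Pf s1 s2 r1 r2 h P1 P2 P3) (Q ++ [z]) L).filter (qq r1 r2 h z) =
      EW 9 s1 s2 P1 P2 P3 Q (L.filter (qq r1 r2 h z)) := by
  have hne := H.ne
  have hT : ∀ i ∈ (P1 ++ (P2 ++ P3)) ++ Q, i ≠ s1 ∧ i ≠ s2 ∧ i ≠ r1 ∧ i ≠ r2 ∧ i ≠ h ∧ i ≠ z := by
    intro i hi
    refine ⟨?_, ?_, ?_, ?_, ?_, ?_⟩ <;> (rintro rfl; tauto)
  have hm : ∀ i ∈ (P1 ++ (P2 ++ P3)) ++ Q, True := fun _ _ => trivial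
  have f1 := pk_filter (s1 := s1) (s2 := s2) (r1 := r1) (r2 := r2) (h := h) (z := z) P1
    (fun i hi => hT i (by simp [hi]))
  have f2 := pk_filter (s1 := s1) (s2 := s2) (r1 := r1) (r2 := r2) (h := h) (z := z) P2
    (fun i hi => hT i (by simp [hi]))
  have f3 := pk_filter (s1 := s1) (s2 := s2) (r1 := r1) (r2 := r2) (h := h) (z := z) P3
    (fun i hi => hT i (by simp [hi]))
  have f4 := pk_filter (s1 := s1) (s2 := s2) (r1 := r1) (r2 := r2) (h := h) (z := z) Q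
    (fun i hi => hT i (by simp [hi]))
  have a1 : k2 s1 s2 r1 r2 s1 = 9 := by unfold k2; rw [if_pos (Or.inl rfl)]
  have a2 : k2 s1 s2 r1 r2 s2 = 9 := by unfold k2; rw [if_pos (Or.inr rfl)]
  have a3 : k2 s1 s2 r1 r2 r1 = 12 := by
    unfold k2; rw [if_neg (by omega), if_pos (Or.inl rfl)]
  have a4 : k2 s1 s2 r1 r2 r2 = 12 := by
    unfold k2; rw [if_neg (by omega), if_pos (Or.inr rfl)]
  have a5 : k2 s1 s2 r1 r2 h = 3 * h + 1 := by
    unfold k2; rw [if_neg (by omega), if_neg (by omega)]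
  have a6 : k2 s1 s2 r1 r2 z = 3 * z + 1 := by
    unfold k2; rw [if_neg (by omega), if_neg (by omega)]
  have b1 : kx 9 s1 s2 s1 = 9 := by unfold kx; rw [if_pos (Or.inl rfl)]
  have b2 : kx 9 s1 s2 s2 = 9 := by unfold kx; rw [if_pos (Or.inr rfl)]
  have t9 : qq r1 r2 h z 9 = true := by unfold qq; rw [decide_eq_true_eq]; omega
  have t12 : ¬ qq r1 r2 h z 12 = true := by unfold qq; rw [decide_eq_true_eq]; omega
  have th : ¬ qq r1 r2 h z (3 * h + 1) = true := by unfold qq; rw [decide_eq_true_eq]; omega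
  have tz : ¬ qq r1 r2 h z (3 * z + 1) = true := by unfold qq; rw [decide_eq_true_eq]; omega
  have t2 : qq r1 r2 h z 2 = true := by unfold qq; rw [decide_eq_true_eq]; omega
  have ts1 : qq r1 r2 h z (3 * (s1 + 1) + 2) = true := by
    unfold qq; rw [decide_eq_true_eq]; omega
  have ts2 : qq r1 r2 h z (3 * (s2 + 1) + 2) = true := by
    unfold qq; rw [decide_eq_true_eq]; omega
  have tr1 : ¬ qq r1 r2 h z (3 * (r1 + 1) + 2) = true := by
    unfold qq; rw [decide_eq_true_eq]; omega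
  have tr2 : ¬ qq r1 r2 h z (3 * (r2 + 1) + 2) = true := by
    unfold qq; rw [decide_eq_true_eq]; omega
  have tsh : ¬ qq r1 r2 h z (3 * (h + 1) + 2) = true := by
    unfold qq; rw [decide_eq_true_eq]; omega
  have tsz : ¬ qq r1 r2 h z (3 * (z + 1) + 2) = true := by
    unfold qq; rw [decide_eq_true_eq]; omega
  unfold EW
  rw [wk_eq, wk_eq]
  unfold Pf
  simp only [pk_append, pk_cons, List.filter_append, f1, f2, f3, f4, a1, a2, a3, a4, a5, a6, b1, b2,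
    List.filter_cons_of_pos t9, List.filter_cons_of_neg t12, List.filter_cons_of_neg th,
    List.filter_cons_of_neg tz, List.filter_cons_of_pos t2, List.filter_cons_of_pos ts1,
    List.filter_cons_of_pos ts2, List.filter_cons_of_neg tr1, List.filter_cons_of_neg tr2,
    List.filter_cons_of_neg tsh, List.filter_cons_of_neg tsz]
  simp [pk]

theorem epn (hPEN : PenStmt) (hGEN : GenStmt) (hFAC : FacStmt) (hCNT : CntStmt) (hSNG : SngStmt)
    (hERD : ErdStmt) (hESB : EsbStmt) (hESC : EscStmt) : EpnStmt := by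
  intro β n s1 s2 P1 P2 P3 Q α hEC
  obtain ⟨-, f, hf, l, hl⟩ := hERD β n 9 0 s1 s2 P1 P2 P3 Q α hEC α (List.Perm.refl _) (RR.refl _)
  obtain ⟨m, hm⟩ := exists_bound ((P1 ++ s1 :: (P2 ++ s2 :: P3)) ++ Q)
  obtain ⟨r1, hr1⟩ : ∃ r1, r1 = m := ⟨_, rfl⟩
  obtain ⟨r2, hr2⟩ : ∃ r2, r2 = m + 1 := ⟨_, rfl⟩
  obtain ⟨h, hh⟩ : ∃ h, h = m + 2 := ⟨_, rfl⟩
  obtain ⟨z, hz⟩ : ∃ z, z = m + 3 := ⟨_, rfl⟩
  have H : Cx s1 s2 r1 r2 h z P1 P2 P3 Q α := by
    refine ⟨hEC.can, ?_⟩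
    have hp : (s1 :: s2 :: r1 :: r2 :: h :: z :: ((P1 ++ (P2 ++ P3)) ++ Q)).Perm
        (r1 :: r2 :: h :: z :: ((P1 ++ s1 :: (P2 ++ s2 :: P3)) ++ Q)) := by
      rw [List.perm_iff_count]
      intro a
      simp only [List.count_cons, List.count_append]
      omega
    rw [hp.nodup_iff]
    have nm : ∀ k, m ≤ k → k ∉ (P1 ++ s1 :: (P2 ++ s2 :: P3)) ++ Q := by
      intro k hk hk'
      have := hm k hk'
      omega
    have n1 := nm r1 (by omega)
    have n2 := nm r2 (by omega)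
    have n3 := nm h (by omega)
    have n4 := nm z (by omega)
    rw [List.nodup_cons, List.nodup_cons, List.nodup_cons, List.nodup_cons]
    refine ⟨?_, ?_, ?_, n4, hEC.nd⟩
    · rw [List.mem_cons, List.mem_cons, List.mem_cons]
      rintro (h1 | h1 | h1 | h1)
      · omega
      · omega
      · omega
      · exact n1 h1
    · rw [List.mem_cons, List.mem_cons]
      rintro (h1 | h1 | h1)
      · omega
      · omega
      · exact n2 h1
    · rw [List.mem_cons]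
      rintro (h1 | h1)
      · omega
      · exact n3 h1
  clear hr1 hr2 hh hz hm
  have hne := H.ne
  have hnd := H.nd'
  set κ := k2 s1 s2 r1 r2 with hκ
  set P := Pf s1 s2 r1 r2 h P1 P2 P3 with hP
  set Q' := Q ++ [z] with hQ'
  set S := Sf h z P1 P2 P3 Q with hS
  have hhS : h ∈ S := by rw [hS]; unfold Sf; simp
  have hzS : z ∈ S := by rw [hS]; unfold Sf; simp
  have hhP : h ∈ P := by rw [hP]; unfold Pf; simp
  have hzQ : z ∈ Q' := by rw [hQ']; simp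
  have hfS : f ∈ S := by
    rw [hS]; unfold Sf
    simp only [List.mem_append, List.mem_cons] at hf ⊢
    tauto
  have hfP : f ∈ P := by
    rw [hP]; unfold Pf
    simp only [List.mem_append, List.mem_cons] at hf ⊢
    tauto
  have hfh : f ≠ h := by
    rintro rfl
    have : f ∈ (P1 ++ (P2 ++ P3)) ++ Q := by
      simp only [List.mem_append] at hf ⊢
      tauto
    tauto
  -- the four words
  have l00 : Lf κ P Q' S (L00 h z α) := H.lf (List.Perm.refl (L00 h z α))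
  have l01 : Lf κ P Q' S (L01 h z α) := H.lf (p01 h z α)
  have l10 : Lf κ P Q' S (L10 h z α) := H.lf (p10 h z α)
  have l11 : Lf κ P Q' S (L11 h z α) := H.lf (p11 h z α)
  -- content
  have hno : ∀ (p : ℕ → Bool) (u : List ℕ), RR β ((Wk κ P Q' (L00 h z α)).filter p) u →
      ∀ i ∈ P ++ Q', i ∉ S → 3 * i + 1 ∉ u := by
    intro p u hu i hi hiS
    refine hu.content hEC.hc.i3 ?_
    intro h1
    exact H.no hi hiS (List.mem_filter.mp h1).1
  -- states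
  have SB : ∀ u, RR β ((Wk κ P Q' (L00 h z α)).filter (fun a => decide (a ≠ 12))) u →
      ∃ B, St 9 P Q' S u B ∧ (∃ A, B 0 = A ++ [3 * h + 1, 9, 0]) ∧
        ∀ i ∈ S, i ∈ P → Btw 0 (3 * i + 1) (B 0) := by
    intro u hu
    obtain ⟨B, b1, b2, b3, b4, b5, b6, b7, b8, b9⟩ := hESB β n s1 s2 r1 r2 h z P1 P2 P3 Q α hEC
      hnd u hu
    refine ⟨B, ⟨b1, b2, b3, b4, b5, b7, hno _ u hu⟩, b8, ?_⟩
    intro i hi hiP
    apply b9
    have h1 : i ∈ h :: z :: ((P1 ++ (P2 ++ P3)) ++ Q) := sf_perm.subset hi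
    rw [hP] at hiP
    unfold Pf at hiP
    have g1 : i ≠ s1 ∧ i ≠ s2 ∧ i ≠ r1 ∧ i ≠ r2 := by
      rw [List.mem_cons, List.mem_cons] at h1
      refine ⟨?_, ?_, ?_, ?_⟩
      · rintro rfl
        rcases h1 with h1 | h1 | h1 <;> tauto
      · rintro rfl
        rcases h1 with h1 | h1 | h1 <;> tauto
      · rintro rfl
        rcases h1 with h1 | h1 | h1 <;> tauto
      · rintro rfl
        rcases h1 with h1 | h1 | h1 <;> tauto
    simp only [List.mem_append, List.mem_cons, List.not_mem_nil, or_false] at hiP ⊢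
    tauto
  have SC : ∀ u, RR β ((Wk κ P Q' (L00 h z α)).filter (fun a => decide (a ≠ 9))) u →
      ∃ B, St 12 P Q' S u B ∧ (∃ A, B 0 = A ++ [3 * f + 1, 3, 12, 6, 3 * h + 1, 0]) ∧
        ∀ i ∈ S, i ∈ Q' → Btw 3 (3 * i + 1) (B 0) ∧ Btw 6 (3 * i + 1) (B 0) := by
    intro u hu
    obtain ⟨B, b1, b2, b3, b4, b5, b6, b7, b8, b9⟩ := hESC β n s1 s2 r1 r2 h z P1 P2 P3 Q α hEC
      hnd f ⟨l, hl⟩ u hu
    exact ⟨B, ⟨b1, b2, b3, b4, b5, b7, hno _ u hu⟩, b8, fun i _ hi => b9 i hi⟩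
  -- not between
  have cz : ∀ L : List ℕ, L.Perm (L00 h z α) → L.count (3 * z + 1) = 1 := fun L hL => by
    rw [hL.count_eq, H.cS hzS]
  have ch : ∀ L : List ℕ, L.Perm (L00 h z α) → L.count (3 * h + 1) = 1 := fun L hL => by
    rw [hL.count_eq, H.cS hhS]
  have nz00 : ¬ Btw 0 (3 * z + 1) (L00 h z α) :=
    not_btw (cz _ (List.Perm.refl _)) (X := [6, 3]) rfl (Or.inl (by simp))
  have nz01 : ¬ Btw 0 (3 * z + 1) (L01 h z α) :=
    not_btw (cz _ (p01 _ _ _)) (X := [6, 3]) rfl (Or.inl (by simp))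
  have nz10 : ¬ Btw 0 (3 * z + 1) (L10 h z α) :=
    not_btw (cz _ (p10 _ _ _)) (X := [6, 3]) rfl (Or.inl (by simp))
  have nz11 : ¬ Btw 0 (3 * z + 1) (L11 h z α) :=
    not_btw (cz _ (p11 _ _ _)) (X := [6, 3]) rfl (Or.inl (by simp))
  have nh01 : ¬ Btw 3 (3 * h + 1) (L01 h z α) :=
    not_btw (ch _ (p01 _ _ _)) (X := 6 :: 3 :: (3 * z + 1) :: 0 :: (α ++ [12, 3, 6])) (Y := [9, 0])
      (by simp [L01]) (Or.inr (by simp))
  have nh11 : ¬ Btw 3 (3 * h + 1) (L11 h z α) :=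
    not_btw (ch _ (p11 _ _ _)) (X := 6 :: 3 :: (3 * z + 1) :: 0 :: (α ++ [12, 3, 6])) (Y := [0, 9])
      (by simp [L11]) (Or.inr (by simp))
  -- shapes
  have s00 : L00 h z α = (6 :: 3 :: (3 * z + 1) :: 0 :: α) ++ 3 :: 12 :: [6, 3 * h + 1, 9, 0] := rfl
  have s01 : L01 h z α = (6 :: 3 :: (3 * z + 1) :: 0 :: α) ++ 12 :: 3 :: [6, 3 * h + 1, 9, 0] := rfl
  have s10 : L10 h z α = (6 :: 3 :: (3 * z + 1) :: 0 :: α) ++ 3 :: 12 :: [6, 3 * h + 1, 0, 9] := rfl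
  have s11 : L11 h z α = (6 :: 3 :: (3 * z + 1) :: 0 :: α) ++ 12 :: 3 :: [6, 3 * h + 1, 0, 9] := rfl
  have t00 : L00 h z α = (6 :: 3 :: (3 * z + 1) :: 0 :: (α ++ [3, 12, 6, 3 * h + 1])) ++ [9, 0] := by
    simp [L00]
  have t01 : L01 h z α = (6 :: 3 :: (3 * z + 1) :: 0 :: (α ++ [12, 3, 6, 3 * h + 1])) ++ [9, 0] := by
    simp [L01]
  have t10 : L10 h z α = (6 :: 3 :: (3 * z + 1) :: 0 :: (α ++ [3, 12, 6, 3 * h + 1])) ++ [0, 9] := by
    simp [L10]
  have t11 : L11 h z α = (6 :: 3 :: (3 * z + 1) :: 0 :: (α ++ [12, 3, 6, 3 * h + 1])) ++ [0, 9] := by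
    simp [L11]
  have v01 : L01 h z α = (6 :: 3 :: (3 * z + 1) :: 0 :: l) ++ (3 * f + 1) ::
      ([12, 3, 6] ++ (3 * h + 1) :: [9, 0]) := by
    unfold L01
    rw [hl]
    simp
  -- the sets
  obtain ⟨SBs, hSBs⟩ : ∃ X : List ℕ → Prop, X = fun v =>
    RR β ((Wk κ P Q' (L00 h z α)).filter (fun a => decide (a ≠ 12)))
      (v.filter (fun a => decide (a ≠ 12))) := ⟨_, rfl⟩
  obtain ⟨SCs, hSCs⟩ : ∃ X : List ℕ → Prop, X = fun v =>
    RR β ((Wk κ P Q' (L00 h z α)).filter (fun a => decide (a ≠ 9)))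
      (v.filter (fun a => decide (a ≠ 9))) := ⟨_, rfl⟩
  have kB : ∀ w w', RR β w w' → SBs w → SBs w' := by
    intro w w' hw h1
    rw [hSBs] at h1 ⊢
    exact FIC.trans _ h1 (hw.filter _)
  have kC : ∀ w w', RR β w w' → SCs w → SCs w' := by
    intro w w' hw h1
    rw [hSCs] at h1 ⊢
    exact FIC.trans _ h1 (hw.filter _)
  -- exchange of two adjacent letters of the main block
  have exB : ∀ (X Y : List ℕ) (a b : ℕ) (φ : ℕ → List ℕ) (M N : List ℕ),
      (SBs (M ++ ((Wk κ P Q' (X ++ a :: b :: Y)).flatMap φ ++ N)) →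
        (φ a).filter (fun a => decide (a ≠ 12)) ++ (φ b).filter (fun a => decide (a ≠ 12)) =
        (φ b).filter (fun a => decide (a ≠ 12)) ++ (φ a).filter (fun a => decide (a ≠ 12))) →
      SBs (M ++ ((Wk κ P Q' (X ++ a :: b :: Y)).flatMap φ ++ N)) →
        SBs (M ++ ((Wk κ P Q' (X ++ b :: a :: Y)).flatMap φ ++ N)) := by
    intro X Y a b φ M N h1 h2
    have h3 := h1 h2
    rw [hSBs] at h2 ⊢
    dsimp only at h2 ⊢
    rw [filt] at h2 ⊢
    rw [exch (φ := fun c => (φ c).filter (fun a => decide (a ≠ 12))) h3] at h2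
    exact h2
  have exC : ∀ (X Y : List ℕ) (a b : ℕ) (φ : ℕ → List ℕ) (M N : List ℕ),
      (SCs (M ++ ((Wk κ P Q' (X ++ a :: b :: Y)).flatMap φ ++ N)) →
        (φ a).filter (fun a => decide (a ≠ 9)) ++ (φ b).filter (fun a => decide (a ≠ 9)) =
        (φ b).filter (fun a => decide (a ≠ 9)) ++ (φ a).filter (fun a => decide (a ≠ 9))) →
      SCs (M ++ ((Wk κ P Q' (X ++ a :: b :: Y)).flatMap φ ++ N)) →
        SCs (M ++ ((Wk κ P Q' (X ++ b :: a :: Y)).flatMap φ ++ N)) := by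
    intro X Y a b φ M N h1 h2
    have h3 := h1 h2
    rw [hSCs] at h2 ⊢
    dsimp only at h2 ⊢
    rw [filt] at h2 ⊢
    rw [exch (φ := fun c => (φ c).filter (fun a => decide (a ≠ 9))) h3] at h2
    exact h2
  -- `G2` keeps `B`
  have g2a : ∀ (Y : List ℕ), Lf κ P Q' S ((6 :: 3 :: (3 * z + 1) :: 0 :: α) ++ 3 :: 12 :: Y) →
      ∀ (φ : ℕ → List ℕ) (M N : List ℕ),
      SBs (M ++ ((Wk κ P Q' ((6 :: 3 :: (3 * z + 1) :: 0 :: α) ++ 3 :: 12 :: Y)).flatMap φ ++ N)) →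
      SBs (M ++ ((Wk κ P Q' ((6 :: 3 :: (3 * z + 1) :: 0 :: α) ++ 12 :: 3 :: Y)).flatMap φ ++ N)) := by
    intro Y hY φ M N
    refine exB _ _ _ _ φ M N ?_
    intro h1
    rw [hSBs] at h1
    rw [filt] at h1
    obtain ⟨B, hSt, ⟨A, hA⟩, -⟩ := SB _ h1
    exact useA hFAC hnd hY hSt rfl hhS hA
  have g2b : ∀ (Y : List ℕ), Lf κ P Q' S ((6 :: 3 :: (3 * z + 1) :: 0 :: α) ++ 12 :: 3 :: Y) →
      ¬ Btw 3 (3 * h + 1) ((6 :: 3 :: (3 * z + 1) :: 0 :: α) ++ 12 :: 3 :: Y) →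
      ∀ (φ : ℕ → List ℕ) (M N : List ℕ),
      SBs (M ++ ((Wk κ P Q' ((6 :: 3 :: (3 * z + 1) :: 0 :: α) ++ 12 :: 3 :: Y)).flatMap φ ++ N)) →
      SBs (M ++ ((Wk κ P Q' ((6 :: 3 :: (3 * z + 1) :: 0 :: α) ++ 3 :: 12 :: Y)).flatMap φ ++ N)) := by
    intro Y hY hn φ M N
    refine exB _ _ _ _ φ M N ?_
    intro h1
    rw [hSBs] at h1
    rw [filt] at h1
    obtain ⟨B, hSt, ⟨A, hA⟩, hb⟩ := SB _ h1
    exact (useB hFAC hCNT hnd hY hSt rfl hhS hhP hA hb hn).symm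
  -- `G3` keeps `C`
  have g3a : ∀ (X : List ℕ), Lf κ P Q' S (X ++ [9, 0]) → ¬ Btw 0 (3 * z + 1) (X ++ [9, 0]) →
      ∀ (φ : ℕ → List ℕ) (M N : List ℕ),
      SCs (M ++ ((Wk κ P Q' (X ++ [9, 0])).flatMap φ ++ N)) →
      SCs (M ++ ((Wk κ P Q' (X ++ [0, 9])).flatMap φ ++ N)) := by
    intro X hX hn φ M N
    refine exC _ _ _ _ φ M N ?_
    intro h1
    rw [hSCs] at h1
    rw [filt] at h1
    obtain ⟨B, hSt, ⟨A, hA⟩, hb⟩ := SC _ h1
    exact (useC hFAC hCNT hnd hX hSt rfl hhS hzS hzQ hA (fun i hi hi' => (hb i hi hi').2) hn).symm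
  have g3b : ∀ (X : List ℕ), Lf κ P Q' S (X ++ [0, 9]) → ¬ Btw 0 (3 * z + 1) (X ++ [0, 9]) →
      ∀ (φ : ℕ → List ℕ) (M N : List ℕ),
      SCs (M ++ ((Wk κ P Q' (X ++ [0, 9])).flatMap φ ++ N)) →
      SCs (M ++ ((Wk κ P Q' (X ++ [9, 0])).flatMap φ ++ N)) := by
    intro X hX hn φ M N
    refine exC _ _ _ _ φ M N ?_
    intro h1
    rw [hSCs] at h1
    rw [filt] at h1
    obtain ⟨B, hSt, ⟨A, hA⟩, hb⟩ := SC _ h1
    exact useD hFAC hCNT hnd hX hSt rfl hfS hzS hzQ hA (fun i hi hi' => (hb i hi hi').1) hn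
  -- the generated congruences
  obtain ⟨ρ, ρ1, ρ2, ρ3, ρ4⟩ := hGEN β (fun e => e = (Wk κ P Q' (L01 h z α), Wk κ P Q' (L11 h z α)))
  obtain ⟨σ, σ1, σ2, -, σ4⟩ := hGEN β (fun e =>
    e = (Wk κ P Q' (L00 h z α), Wk κ P Q' (L01 h z α)) ∨
      e = (Wk κ P Q' (L10 h z α), Wk κ P Q' (L11 h z α)))
  obtain ⟨τ, τ1, τ2, -, τ4⟩ := hGEN β (fun e =>
    e = (Wk κ P Q' (L01 h z α), Wk κ P Q' (L11 h z α)) ∨
      e = (Wk κ P Q' (L00 h z α), Wk κ P Q' (L10 h z α)))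
  have hρτ : ρ ≤ τ := ρ3 τ τ1 (fun e he => τ2 e (Or.inl he))
  have keepB : ∀ w w', RR σ w w' → SBs w → SBs w' := by
    refine σ4 SBs kB ?_
    rintro e (rfl | rfl) φ M N
    · dsimp only
      rw [s00, s01]
      exact ⟨g2a _ (s00 ▸ l00) φ M N, g2b _ (s01 ▸ l01) (s01 ▸ nh01) φ M N⟩
    · dsimp only
      rw [s10, s11]
      exact ⟨g2a _ (s10 ▸ l10) φ M N, g2b _ (s11 ▸ l11) (s11 ▸ nh11) φ M N⟩
  have iC01 : ∀ (φ : ℕ → List ℕ) (M N : List ℕ),
      SCs (M ++ ((Wk κ P Q' (L01 h z α)).flatMap φ ++ N)) ↔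
      SCs (M ++ ((Wk κ P Q' (L11 h z α)).flatMap φ ++ N)) := by
    intro φ M N
    rw [t01, t11]
    exact ⟨g3a _ (t01 ▸ l01) (t01 ▸ nz01) φ M N, g3b _ (t11 ▸ l11) (t11 ▸ nz11) φ M N⟩
  have keepC : ∀ w w', RR τ w w' → SCs w → SCs w' := by
    refine τ4 SCs kC ?_
    rintro e (rfl | rfl) φ M N
    · exact iC01 φ M N
    · dsimp only
      rw [t00, t10]
      exact ⟨g3a _ (t00 ▸ l00) (t00 ▸ nz00) φ M N, g3b _ (t10 ▸ l10) (t10 ▸ nz10) φ M N⟩
  have keepA : ∀ w w', RR ρ w w' → (SBs w ∧ SCs w) → (SBs w' ∧ SCs w') := by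
    refine ρ4 (fun w => SBs w ∧ SCs w) (fun w w' hw h1 => ⟨kB w w' hw h1.1, kC w w' hw h1.2⟩) ?_
    rintro e rfl φ M N
    dsimp only
    constructor
    · rintro ⟨h1, h2⟩
      refine ⟨?_, (iC01 φ M N).mp h2⟩
      have h1' := h1
      rw [t01] at h1'
      rw [t11]
      refine exB _ _ _ _ φ M N ?_ h1'
      intro _
      rw [hSBs] at h1
      rw [hSCs] at h2
      rw [filt] at h1 h2
      obtain ⟨B, hSt, ⟨A, hA⟩, hb⟩ := SB _ h1
      obtain ⟨B', hSt', ⟨A', hA'⟩, hb'⟩ := SC _ h2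
      have key := useF (X := 6 :: 3 :: (3 * z + 1) :: 0 :: (α ++ [12, 3, 6, 3 * h + 1])) (κ := κ)
        (φ := fun c => (φ c).filter (fun a => decide (a ≠ 12)))
        (M := M.filter (fun a => decide (a ≠ 12)))
        (N := N.filter (fun a => decide (a ≠ 12))) hFAC hCNT hnd (t01 ▸ l01) hSt (by rw [← t01]) hA hb
      rcases key with h3 | h3
      · exact h3.symm
      exfalso
      have hmem : ∀ i ∈ S, i ∈ P → 3 * i + 1 ∈ (φ (3 * i + 1)).filter (fun a => decide (a ≠ 9)) := by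
        intro i hi hi'
        have h4 := List.mem_filter.mp (h3 i hi hi')
        rw [List.mem_filter, decide_eq_true_eq]
        exact ⟨h4.1, by omega⟩
      exact fin01 (X := 6 :: 3 :: (3 * z + 1) :: 0 :: l) (Z := [9, 0]) (κ := κ)
        (φ := fun c => (φ c).filter (fun a => decide (a ≠ 9)))
        (M := M.filter (fun a => decide (a ≠ 9)))
        (N := N.filter (fun a => decide (a ≠ 9))) hFAC hSNG hnd (v01 ▸ l01)
        (by rw [← v01, (p01 h z α).count_eq, H.c6]) hSt' (by rw [← v01]) hfS hfP hhS hhP hfh hA'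
        (hmem f hfS hfP) (hmem h hhS hhP)
    · rintro ⟨h1, h2⟩
      refine ⟨?_, (iC01 φ M N).mpr h2⟩
      rw [t11] at h1
      rw [t01]
      refine exB _ _ _ _ φ M N ?_ h1
      intro h1'
      rw [hSBs] at h1'
      rw [filt] at h1'
      obtain ⟨B, hSt, ⟨A, hA⟩, hb⟩ := SB _ h1'
      exact useE hFAC hnd (t11 ▸ l11) hSt rfl hhS hA
  -- the end
  have rσ1 : RR σ (Wk κ P Q' (L00 h z α)) (Wk κ P Q' (L01 h z α)) := σ2 _ (Or.inl rfl)
  have rσ2 : RR σ (Wk κ P Q' (L10 h z α)) (Wk κ P Q' (L11 h z α)) := σ2 _ (Or.inr rfl)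
  have rρ : RR ρ (Wk κ P Q' (L01 h z α)) (Wk κ P Q' (L11 h z α)) := ρ2 _ rfl
  have rτ : RR τ (Wk κ P Q' (L00 h z α)) (Wk κ P Q' (L10 h z α)) := τ2 _ (Or.inr rfl)
  have lσ : ∀ {a b}, RR σ a b → RR (FIC.sup ρ σ) a b := fun h => FIC.le_sup_right ρ σ _ _ h
  have lρ : ∀ {a b}, RR ρ a b → RR (FIC.sup ρ σ) a b := fun h => FIC.le_sup_left ρ σ _ _ h
  refine hPEN β hEC.hc.md ρ σ τ (fun w => SBs w ∧ SCs w) SBs SCs ρ1 σ1 τ1 hρτ keepA keepB keepC
    (fun w hw => hw) (fun w h1 h2 => ⟨h1, h2⟩) _ _ ⟨?_, ?_⟩ ?_ rτ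
    (FIC.trans _ (lσ rσ1) (FIC.trans _ (lρ rρ) (lσ rσ2.symm)))
  · rw [hSBs]
    exact RR.refl _
  · rw [hSCs]
    exact RR.refl _
  · rintro ⟨h1, -⟩
    rw [hSBs] at h1
    have h2 := h1.filter (qq r1 r2 h z)
    have ff : ∀ W : List ℕ, (W.filter (fun a => decide (a ≠ 12))).filter (qq r1 r2 h z) =
        W.filter (qq r1 r2 h z) := by
      intro W
      rw [List.filter_filter]
      refine List.filter_congr fun a _ => ?_
      cases hq : qq r1 r2 h z a with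
      | false => simp
      | true =>
        unfold qq at hq
        rw [decide_eq_true_eq] at hq
        simp [hq.1]
    rw [ff, ff, hκ, hP, hQ', word_filter H, word_filter H] at h2
    have hα : α.filter (qq r1 r2 h z) = α := by
      rw [List.filter_eq_self]
      intro a ha
      unfold qq
      rw [decide_eq_true_eq]
      have c1 := H.can.sf a ha
      have c2 : a % 3 = 0 → 27 ≤ a := fun h3 => (H.can.lc a ha h3).2
      have c3 : a ≠ 3 * h + 1 := by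
        rintro rfl
        have := H.az (i := h) (by tauto)
        rw [List.count_eq_zero] at this
        exact this ha
      have c4 : a ≠ 3 * z + 1 := by
        rintro rfl
        have := H.az (i := z) (by tauto)
        rw [List.count_eq_zero] at this
        exact this ha
      omega
    have q0 : qq r1 r2 h z 0 = true := by unfold qq; rw [decide_eq_true_eq]; omega
    have q9 : qq r1 r2 h z 9 = true := by unfold qq; rw [decide_eq_true_eq]; omega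
    have q3 : ¬ qq r1 r2 h z 3 = true := by unfold qq; rw [decide_eq_true_eq]; omega
    have q6 : ¬ qq r1 r2 h z 6 = true := by unfold qq; rw [decide_eq_true_eq]; omega
    have q12 : ¬ qq r1 r2 h z 12 = true := by unfold qq; rw [decide_eq_true_eq]; omega
    have qh : ¬ qq r1 r2 h z (3 * h + 1) = true := by unfold qq; rw [decide_eq_true_eq]; omega
    have qz : ¬ qq r1 r2 h z (3 * z + 1) = true := by unfold qq; rw [decide_eq_true_eq]; omega
    have w0 : (L00 h z α).filter (qq r1 r2 h z) = 0 :: (α ++ [9, 0]) := by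
      unfold L00
      simp only [List.filter_append, List.filter_cons_of_neg q6, List.filter_cons_of_neg q3,
        List.filter_cons_of_neg q12, List.filter_cons_of_neg qh, List.filter_cons_of_neg qz,
        List.filter_cons_of_pos q0, List.filter_cons_of_pos q9, hα, List.filter_nil]
    have w1 : (L10 h z α).filter (qq r1 r2 h z) = 0 :: (α ++ [0, 9]) := by
      unfold L10
      simp only [List.filter_append, List.filter_cons_of_neg q6, List.filter_cons_of_neg q3,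
        List.filter_cons_of_neg q12, List.filter_cons_of_neg qh, List.filter_cons_of_neg qz,
        List.filter_cons_of_pos q0, List.filter_cons_of_pos q9, hα, List.filter_nil]
    rw [w0, w1] at h2
    exact hEC.nr h2

end Pool.Agent.MVD.H88
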