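import Pool.Agent.MVD.StmtsLoc

/-!
Squad MVD, row EPN, part 1: general lemmas.
-/

set_option autoImplicit false

namespace Pool.Agent.MVD.H88

open Pool.Agent.Helper14_MV Pool.Agent.Helper2_MV Pool.Agent.MVD

/-- the places -/
def pk (κ : ℕ → ℕ) (S : List ℕ) : List ℕ := S.flatMap (fun i => [κ i, 3 * (i + 1) + 2])

theorem wk_eq (κ : ℕ → ℕ) (P Q L : List ℕ) :
    Wk κ P Q L = pk κ P ++ (L ++ 2 :: pk κ Q) := by
  unfold Wk Bw lab pk
  rw [List.flatMap_append, List.flatMap_cons, List.flatMap_map, List.flatMap_map]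
  simp

theorem pk_append (κ : ℕ → ℕ) (S T : List ℕ) : pk κ (S ++ T) = pk κ S ++ pk κ T := by
  unfold pk
  rw [List.flatMap_append]

theorem pk_cons (κ : ℕ → ℕ) (i : ℕ) (T : List ℕ) :
    pk κ (i :: T) = κ i :: (3 * (i + 1) + 2) :: pk κ T := by
  unfold pk
  rw [List.flatMap_cons]
  rfl

theorem pk_count (κ : ℕ → ℕ) (S : List ℕ) (c : ℕ) (hc : c % 3 ≠ 2) :
    (pk κ S).count c = (S.map κ).count c := by
  induction S with
  | nil => rfl
  | cons i S ih =>
    have h1 : ((3 * (i + 1) + 2 : ℕ) == c) = false := by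
      rw [beq_eq_false_iff_ne]
      omega
    rw [pk_cons, List.map_cons, List.count_cons, List.count_cons, List.count_cons, ih, h1]
    simp

theorem wk_count (κ : ℕ → ℕ) (P Q L : List ℕ) (c : ℕ) (hc : c % 3 ≠ 2) :
    (Wk κ P Q L).count c = ((P ++ Q).map κ).count c + L.count c := by
  have h1 : ((2 : ℕ) == c) = false := by
    rw [beq_eq_false_iff_ne]
    omega
  rw [wk_eq, List.count_append, List.count_append, List.count_cons, pk_count κ P c hc,
    pk_count κ Q c hc, List.map_append, List.count_append, h1]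
  simp
  omega

theorem flat_count_ge (φ : ℕ → List ℕ) {x c : ℕ} (h : c ∈ φ x) (W : List ℕ) :
    W.count x ≤ (W.flatMap φ).count c := by
  induction W with
  | nil => simp
  | cons a W ih =>
    rw [List.flatMap_cons, List.count_append, List.count_cons]
    by_cases hax : a = x
    · subst hax
      have := List.count_pos_iff.mpr h
      simp
      omega
    · simp [hax]
      omega

theorem bw_cons (r : ℕ) (R : List ℕ) (B : ℕ → List ℕ) :
    Bw (r :: R) B = B r ++ (3 * r + 2) :: Bw R B := by
  simp [Bw]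

theorem bw_sep (R : List ℕ) (B : ℕ → List ℕ) (hB : ∀ r, SFr (B r)) (s : ℕ) :
    (Bw R B).count (3 * s + 2) = R.count s := by
  induction R with
  | nil => rfl
  | cons r R ih =>
    have h1 : (B r).count (3 * s + 2) = 0 := by
      rw [List.count_eq_zero]
      intro h
      exact hB r _ h (by omega)
    rw [bw_cons, List.count_append, List.count_cons, List.count_cons, ih, h1]
    by_cases hrs : r = s
    · subst hrs
      simp
    · have h2 : ((3 * r + 2 : ℕ) == 3 * s + 2) = false := by
        rw [beq_eq_false_iff_ne]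
        omega
      have h3 : (r == s) = false := by
        rw [beq_eq_false_iff_ne]
        exact hrs
      rw [h2, h3]
      simp

theorem lab_nodup {P Q : List ℕ} (h : (P ++ Q).Nodup) : (lab P Q).Nodup := by
  have h1 : (lab P Q).Perm (0 :: ((P ++ Q).map (fun e => e + 1))) := by
    unfold lab
    rw [List.map_append]
    exact List.perm_middle
  rw [h1.nodup_iff, List.nodup_cons]
  constructor
  · intro h2
    rw [List.mem_map] at h2
    obtain ⟨a, _, ha⟩ := h2
    omega
  · exact h.map (fun a b hab => by simpa using hab)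

theorem mem_lab {P Q : List ℕ} {r : ℕ} (h : r ∈ lab P Q) (h0 : r ≠ 0) : r - 1 ∈ P ++ Q := by
  unfold lab at h
  rw [List.mem_append, List.mem_cons] at h
  rw [List.mem_append]
  rcases h with h | h | h
  · rw [List.mem_map] at h
    obtain ⟨a, ha, hr⟩ := h
    left
    have : r - 1 = a := by omega
    rw [this]
    exact ha
  · exact absurd h h0
  · rw [List.mem_map] at h
    obtain ⟨a, ha, hr⟩ := h
    right
    have : r - 1 = a := by omega
    rw [this]
    exact ha

theorem one_letter {w1 w2 : List ℕ} {x : ℕ} (h1 : ∀ c ∈ w1, c = x) (h2 : ∀ c ∈ w2, c = x) :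
    w1 ++ w2 = w2 ++ w1 := by
  have e1 := List.eq_replicate_iff.mpr ⟨rfl, h1⟩
  have e2 := List.eq_replicate_iff.mpr ⟨rfl, h2⟩
  rw [e1, e2, List.replicate_append_replicate, List.replicate_append_replicate, Nat.add_comm]

/-- the image of the main block has no separators -/
theorem img_sfr {κ : ℕ → ℕ} {P Q L M N : List ℕ} {φ : ℕ → List ℕ} {B : ℕ → List ℕ}
    (hnd : (P ++ Q).Nodup) (hm : ∀ a ∈ L, 2 ≤ (Wk κ P Q L).count a) (hsf : ∀ r, SFr (B r))
    (hu : M ++ ((Wk κ P Q L).flatMap φ ++ N) = Bw (lab P Q) B) : SFr (L.flatMap φ) := by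
  intro c hc h2
  rw [List.mem_flatMap] at hc
  obtain ⟨x, hx, hcx⟩ := hc
  have h3 := flat_count_ge φ hcx (Wk κ P Q L)
  have h4 := hm x hx
  have h5 := bw_sep (lab P Q) B hsf (c / 3)
  have e : 3 * (c / 3) + 2 = c := by omega
  rw [e, ← hu, List.count_append, List.count_append] at h5
  have h6 := List.nodup_iff_count_le_one.mp (lab_nodup hnd) (c / 3)
  omega

theorem core (hFAC : FacStmt) {κ : ℕ → ℕ} {P Q L S M N : List ℕ} {φ : ℕ → List ℕ}
    {B : ℕ → List ℕ} {x2 : ℕ}
    (hnd : (P ++ Q).Nodup) (hm : ∀ a ∈ L, 2 ≤ (Wk κ P Q L).count a) (hsf : ∀ r, SFr (B r))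
    (hu : M ++ ((Wk κ P Q L).flatMap φ ++ N) = Bw (lab P Q) B)
    (h2 : ∀ i ∈ S, (B 0).count (3 * i + 1) = 1 ∧ (B (i + 1)).count (3 * i + 1) = 1 ∧
      (Bw (lab P Q) B).count (3 * i + 1) = 2)
    (h3 : ∀ r ∈ lab P Q, r ≠ 0 → ∀ a ∈ B r, a = x2 ∨ a = 3 * (r - 1) + 1)
    (h4 : (B 0).count x2 = 1)
    (h5 : ∀ a ∈ B 0, a ≠ x2 → (∃ i ∈ S, a = 3 * i + 1) ∨
      ((B 0).count a = 2 ∧ (Bw (lab P Q) B).count a = 2))
    (h6 : ∀ i ∈ P ++ Q, i ∉ S → 3 * i + 1 ∉ Bw (lab P Q) B)
    {a b : ℕ} (ha : 2 ≤ L.count a) (hb : b ∈ L) (hb3 : 3 ≤ (Wk κ P Q L).count b) :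
    φ a ++ φ b = φ b ++ φ a ∨
      (φ b = [x2] ∧ φ a ≠ [] ∧ ∃ pa pc, B 0 = pa ++ (L.flatMap φ ++ pc)) := by
  have haL : a ∈ L := List.count_pos_iff.mp (by omega)
  by_cases hF : L.flatMap φ = []
  · left
    rw [List.flatMap_eq_nil_iff] at hF
    rw [hF a haL, hF b hb]
  have hs := img_sfr hnd hm hsf hu
  have hu2 : Bw (lab P Q) B = (M ++ (pk κ P).flatMap φ) ++
      (L.flatMap φ ++ ((2 :: pk κ Q).flatMap φ ++ N)) := by
    rw [← hu, wk_eq, List.flatMap_append, List.flatMap_append]
    simp only [List.append_assoc]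
  obtain ⟨R1, r, R2, pa, pc, e1, e2, -, -⟩ := hFAC (lab P Q) B _ _ _ (fun r _ => hsf r) hs hF hu2
  have hr : r ∈ lab P Q := by rw [e1]; simp
  -- letters of `φ b` are frequent
  have hb3' : ∀ c ∈ φ b, 3 ≤ (Bw (lab P Q) B).count c := by
    intro c hc
    have := flat_count_ge φ hc (Wk κ P Q L)
    rw [← hu, List.count_append, List.count_append]
    omega
  have ha2 : ∀ c ∈ φ a, 2 ≤ (L.flatMap φ).count c := by
    intro c hc
    have := flat_count_ge φ hc L
    omega
  have hbF : ∀ c ∈ φ b, c ∈ L.flatMap φ := fun c hc => List.mem_flatMap.mpr ⟨b, hb, hc⟩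
  have haF : ∀ c ∈ φ a, c ∈ L.flatMap φ := fun c hc => List.mem_flatMap.mpr ⟨a, haL, hc⟩
  have hle : ∀ c, (L.flatMap φ).count c ≤ (B r).count c := by
    intro c
    rw [e2, List.count_append, List.count_append]
    omega
  have hmem : ∀ c ∈ L.flatMap φ, c ∈ B r := by
    intro c hc
    rw [e2]
    simp [hc]
  by_cases hr0 : r = 0
  · subst hr0
    have hbx : ∀ c ∈ φ b, c = x2 := by
      intro c hc
      by_contra hne
      have hk := hb3' c hc
      rcases h5 c (hmem c (hbF c hc)) hne with ⟨i, hi, hci⟩ | ⟨-, h7⟩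
      · have := (h2 i hi).2.2
        rw [← hci] at this
        omega
      · omega
    have hcnt : (φ b).length ≤ 1 := by
      have e3 := List.eq_replicate_iff.mpr ⟨rfl, hbx⟩
      have h8 : (φ b).count x2 = (φ b).length := by
        conv_lhs => rw [e3]
        exact List.count_replicate_self
      obtain ⟨l1, l2, hl⟩ := List.append_of_mem hb
      have h9 : (φ b).count x2 ≤ (L.flatMap φ).count x2 := by
        rw [hl, List.flatMap_append, List.flatMap_cons, List.count_append, List.count_append]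
        omega
      have := hle x2
      omega
    by_cases h10 : φ b = []
    · left
      rw [h10]
      simp
    by_cases h11 : φ a = []
    · left
      rw [h11]
      simp
    right
    refine ⟨?_, h11, pa, pc, e2⟩
    have h12 : (φ b).length = 1 := by
      have := List.length_pos_iff.mpr h10
      omega
    obtain ⟨y, hy⟩ := List.length_eq_one_iff.mp h12
    rw [hy]
    rw [hbx y (by rw [hy]; simp)]
  · left
    have hi := mem_lab hr hr0
    have e3 : r - 1 + 1 = r := by omega
    have hax : ∀ c ∈ φ a, c = x2 := by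
      intro c hc
      rcases h3 r hr hr0 c (hmem c (haF c hc)) with h7 | h7
      · exact h7
      exfalso
      have h8 := hle c
      have h9 := ha2 c hc
      by_cases hS : r - 1 ∈ S
      · have h10 := (h2 _ hS).2.1
        rw [e3, ← h7] at h10
        omega
      · refine h6 _ hi hS ?_
        rw [← h7, hu2]
        simp [haF c hc]
    have hbx : ∀ c ∈ φ b, c = x2 := by
      intro c hc
      rcases h3 r hr hr0 c (hmem c (hbF c hc)) with h7 | h7
      · exact h7
      exfalso
      have h8 := hb3' c hc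
      by_cases hS : r - 1 ∈ S
      · have h10 := (h2 _ hS).2.2
        rw [← h7] at h10
        omega
      · refine h6 _ hi hS ?_
        rw [← h7]
        exact List.count_pos_iff.mp (by omega)
    exact one_letter hax hbx

/-- uniqueness of the splitting at a letter which occurs once -/
theorem split_uniq {W X Y X' Y' : List ℕ} {c : ℕ} (h1 : W.count c = 1) (e : W = X ++ c :: Y)
    (e' : W = X' ++ c :: Y') : X = X' ∧ Y = Y' := by
  have hX : c ∉ X ∧ c ∉ Y := by
    rw [e, List.count_append, List.count_cons_self] at h1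
    constructor
    · rw [← List.count_eq_zero]
      omega
    · rw [← List.count_eq_zero]
      omega
  have hX' : c ∉ X' ∧ c ∉ Y' := by
    rw [e', List.count_append, List.count_cons_self] at h1
    constructor
    · rw [← List.count_eq_zero]
      omega
    · rw [← List.count_eq_zero]
      omega
  have h2 : X ++ c :: Y = X' ++ c :: Y' := e.symm.trans e'
  rw [List.append_eq_append_iff] at h2
  rcases h2 with ⟨a', h3, h4⟩ | ⟨c', h3, h4⟩
  · cases a' with
    | nil =>
      simp at h4
      exact ⟨by simpa using h3.symm, h4⟩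
    | cons x a' =>
      exfalso
      simp only [List.cons_append, List.cons.injEq] at h4
      exact hX'.1 (by rw [h3, ← h4.1]; simp)
  · cases c' with
    | nil =>
      simp at h4
      exact ⟨by simpa using h3, h4.symm⟩
    | cons x c' =>
      exfalso
      simp only [List.cons_append, List.cons.injEq] at h4
      exact hX.1 (by rw [h3, ← h4.1]; simp)

theorem last_mem {X w A : List ℕ} {c : ℕ} (hw : w ≠ []) (e : X ++ w = A ++ [c]) :
    ∃ w', w = w' ++ [c] ∧ X ++ w' = A := by
  rcases List.eq_nil_or_concat w with h | ⟨w', x, h⟩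
  · exact absurd h hw
  · rw [List.concat_eq_append] at h
    rw [h, ← List.append_assoc] at e
    have h1 := List.append_inj' e rfl
    have h2 : x = c := by simpa using h1.2
    exact ⟨w', by rw [h, h2], h1.1⟩

end Pool.Agent.MVD.H88
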