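import Pool.Agent.Helper88_MVD.EPNa

/-!
Squad MVD, row EPN, part 2: the words of the pentagon.
-/

set_option autoImplicit false

namespace Pool.Agent.MVD.H88

open Pool.Agent.Helper14_MV Pool.Agent.Helper2_MV Pool.Agent.MVD

/-- the left places -/
def Pf (s1 s2 r1 r2 h : ℕ) (P1 P2 P3 : List ℕ) : List ℕ :=
  P1 ++ s1 :: r1 :: (P2 ++ s2 :: r2 :: (P3 ++ [h]))

/-- the indices of the passives -/
def Sf (h z : ℕ) (P1 P2 P3 Q : List ℕ) : List ℕ := P1 ++ (P2 ++ (P3 ++ h :: (Q ++ [z])))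

/-- the main block of `V00` -/
def L00 (h z : ℕ) (α : List ℕ) : List ℕ :=
  6 :: 3 :: (3 * z + 1) :: 0 :: (α ++ [3, 12, 6, 3 * h + 1, 9, 0])
def L01 (h z : ℕ) (α : List ℕ) : List ℕ :=
  6 :: 3 :: (3 * z + 1) :: 0 :: (α ++ [12, 3, 6, 3 * h + 1, 9, 0])
def L10 (h z : ℕ) (α : List ℕ) : List ℕ :=
  6 :: 3 :: (3 * z + 1) :: 0 :: (α ++ [3, 12, 6, 3 * h + 1, 0, 9])
def L11 (h z : ℕ) (α : List ℕ) : List ℕ :=
  6 :: 3 :: (3 * z + 1) :: 0 :: (α ++ [12, 3, 6, 3 * h + 1, 0, 9])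

theorem p01 (h z : ℕ) (α : List ℕ) : (L01 h z α).Perm (L00 h z α) := by
  unfold L01 L00
  rw [List.perm_iff_count]
  intro a
  simp only [List.count_cons, List.count_append, List.count_nil]
  omega

theorem p10 (h z : ℕ) (α : List ℕ) : (L10 h z α).Perm (L00 h z α) := by
  unfold L10 L00
  rw [List.perm_iff_count]
  intro a
  simp only [List.count_cons, List.count_append, List.count_nil]
  omega

theorem p11 (h z : ℕ) (α : List ℕ) : (L11 h z α).Perm (L00 h z α) := by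
  unfold L11 L00
  rw [List.perm_iff_count]
  intro a
  simp only [List.count_cons, List.count_append, List.count_nil]
  omega

/-- the facts about the indices -/
structure Cx (s1 s2 r1 r2 h z : ℕ) (P1 P2 P3 Q α : List ℕ) : Prop where
  can : Can (P1 ++ (P2 ++ P3)) Q α
  nd : (s1 :: s2 :: r1 :: r2 :: h :: z :: ((P1 ++ (P2 ++ P3)) ++ Q)).Nodup

section

variable {s1 s2 r1 r2 h z : ℕ} {P1 P2 P3 Q α : List ℕ}

theorem nd_perm : ((Pf s1 s2 r1 r2 h P1 P2 P3) ++ (Q ++ [z])).Perm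
    (s1 :: s2 :: r1 :: r2 :: h :: z :: ((P1 ++ (P2 ++ P3)) ++ Q)) := by
  unfold Pf
  rw [List.perm_iff_count]
  intro a
  simp only [List.count_cons, List.count_append, List.count_nil]
  omega

theorem sf_perm : (Sf h z P1 P2 P3 Q).Perm (h :: z :: ((P1 ++ (P2 ++ P3)) ++ Q)) := by
  unfold Sf
  rw [List.perm_iff_count]
  intro a
  simp only [List.count_cons, List.count_append, List.count_nil]
  omega

theorem Cx.nd' (H : Cx s1 s2 r1 r2 h z P1 P2 P3 Q α) :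
    ((Pf s1 s2 r1 r2 h P1 P2 P3) ++ (Q ++ [z])).Nodup := nd_perm.nodup_iff.mpr H.nd

theorem Cx.ne (H : Cx s1 s2 r1 r2 h z P1 P2 P3 Q α) :
    s1 ≠ s2 ∧ s1 ≠ r1 ∧ s1 ≠ r2 ∧ s1 ≠ h ∧ s1 ≠ z ∧ s2 ≠ r1 ∧ s2 ≠ r2 ∧ s2 ≠ h ∧ s2 ≠ z ∧
      r1 ≠ r2 ∧ r1 ≠ h ∧ r1 ≠ z ∧ r2 ≠ h ∧ r2 ≠ z ∧ h ≠ z ∧
      s1 ∉ (P1 ++ (P2 ++ P3)) ++ Q ∧ s2 ∉ (P1 ++ (P2 ++ P3)) ++ Q ∧
      r1 ∉ (P1 ++ (P2 ++ P3)) ++ Q ∧ r2 ∉ (P1 ++ (P2 ++ P3)) ++ Q ∧
      h ∉ (P1 ++ (P2 ++ P3)) ++ Q ∧ z ∉ (P1 ++ (P2 ++ P3)) ++ Q := by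
  have h1 := H.nd
  simp only [List.nodup_cons, List.mem_cons, not_or] at h1
  tauto

theorem Cx.a0 (H : Cx s1 s2 r1 r2 h z P1 P2 P3 Q α) (c : ℕ) (hc : c % 3 = 0) (hc' : c < 27) :
    α.count c = 0 := by
  rw [List.count_eq_zero]
  intro hm
  have := (H.can.lc c hm hc).2
  omega

theorem Cx.az (H : Cx s1 s2 r1 r2 h z P1 P2 P3 Q α) {i : ℕ}
    (hi : i ∉ (P1 ++ (P2 ++ P3)) ++ Q) : α.count (3 * i + 1) = 0 := by
  rw [List.count_eq_zero]
  intro hm
  obtain ⟨j, hj, e⟩ := H.can.ps _ hm (by omega)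
  have : i = j := by omega
  rw [this] at hi
  exact hi hj

theorem l00_count (c : ℕ) : (L00 h z α).count c = α.count c +
    ([6, 3, 0, 3, 12, 6, 9, 0] : List ℕ).count c + ([3 * z + 1, 3 * h + 1] : List ℕ).count c := by
  unfold L00
  simp only [List.count_cons, List.count_append, List.count_nil]
  omega

theorem zh_count0 (k : ℕ) : ([3 * z + 1, 3 * h + 1] : List ℕ).count (3 * k) = 0 := by
  rw [List.count_eq_zero]
  simp only [List.mem_cons, List.not_mem_nil, or_false, not_or]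
  omega

theorem nz_count (i : ℕ) : ([6, 3, 0, 3, 12, 6, 9, 0] : List ℕ).count (3 * i + 1) = 0 := by
  rw [List.count_eq_zero]
  simp only [List.mem_cons, List.not_mem_nil, or_false, not_or]
  omega

theorem Cx.c0 (H : Cx s1 s2 r1 r2 h z P1 P2 P3 Q α) : (L00 h z α).count 0 = 2 := by
  rw [l00_count, H.a0 0 (by omega) (by omega)]
  have := zh_count0 (z := z) (h := h) 0
  rw [Nat.mul_zero] at this
  rw [this]
  rfl

theorem Cx.c3 (H : Cx s1 s2 r1 r2 h z P1 P2 P3 Q α) : (L00 h z α).count 3 = 2 := by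
  rw [l00_count, H.a0 3 (by omega) (by omega)]
  have := zh_count0 (z := z) (h := h) 1
  rw [Nat.mul_one] at this
  rw [this]
  rfl

theorem Cx.c6 (H : Cx s1 s2 r1 r2 h z P1 P2 P3 Q α) : (L00 h z α).count 6 = 2 := by
  rw [l00_count, H.a0 6 (by omega) (by omega)]
  have : ([3 * z + 1, 3 * h + 1] : List ℕ).count 6 = 0 := zh_count0 (z := z) (h := h) 2
  rw [this]
  rfl

theorem Cx.cS (H : Cx s1 s2 r1 r2 h z P1 P2 P3 Q α) {i : ℕ} (hi : i ∈ Sf h z P1 P2 P3 Q) :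
    (L00 h z α).count (3 * i + 1) = 1 := by
  have hne := H.ne
  rw [l00_count, nz_count]
  have h1 : i ∈ h :: z :: ((P1 ++ (P2 ++ P3)) ++ Q) := sf_perm.subset hi
  rw [List.mem_cons, List.mem_cons] at h1
  rcases h1 with rfl | rfl | h1
  · rw [H.az (by tauto)]
    have h2 : ((3 * z + 1 : ℕ) == 3 * i + 1) = false := by
      rw [beq_eq_false_iff_ne]
      omega
    simp [List.count_cons, h2]
  · rw [H.az (by tauto)]
    have h2 : ((3 * h + 1 : ℕ) == 3 * i + 1) = false := by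
      rw [beq_eq_false_iff_ne]
      omega
    simp [List.count_cons, h2]
  · rw [H.can.pl i h1]
    have h3 : i ≠ h := by
      rintro rfl
      tauto
    have h4 : i ≠ z := by
      rintro rfl
      tauto
    have h2 : ((3 * h + 1 : ℕ) == 3 * i + 1) = false := by
      rw [beq_eq_false_iff_ne]
      omega
    have h5 : ((3 * z + 1 : ℕ) == 3 * i + 1) = false := by
      rw [beq_eq_false_iff_ne]
      omega
    simp [List.count_cons, h2, h5]

/-! ### the places -/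

theorem k2_z {i j : ℕ} (h1 : i ≠ s1) (h2 : i ≠ s2) (h3 : i ≠ r1) (h4 : i ≠ r2) :
    k2 s1 s2 r1 r2 j = 3 * i + 1 ↔ j = i := by
  unfold k2
  constructor
  · intro h
    split_ifs at h <;> omega
  · rintro rfl
    rw [if_neg (by tauto), if_neg (by tauto)]

theorem k2_z' {i j : ℕ} (h1 : i = s1 ∨ i = s2 ∨ i = r1 ∨ i = r2) :
    k2 s1 s2 r1 r2 j ≠ 3 * i + 1 := by
  unfold k2
  intro h
  split_ifs at h with h5 h6
  · omega
  · omega
  · have : j = i := by omega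
    subst this
    tauto

theorem map_z {i : ℕ} (h1 : i ≠ s1) (h2 : i ≠ s2) (h3 : i ≠ r1) (h4 : i ≠ r2) (T : List ℕ) :
    (T.map (k2 s1 s2 r1 r2)).count (3 * i + 1) = T.count i := by
  induction T with
  | nil => rfl
  | cons j T ih =>
    rw [List.map_cons, List.count_cons, List.count_cons, ih]
    by_cases hj : j = i
    · rw [if_pos (by rw [beq_iff_eq, k2_z h1 h2 h3 h4]; exact hj), if_pos (by rw [beq_iff_eq]; exact hj)]
    · rw [if_neg (by rw [beq_iff_eq, k2_z h1 h2 h3 h4]; exact hj), if_neg (by rw [beq_iff_eq]; exact hj)]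

theorem map_z' {i : ℕ} (h1 : i = s1 ∨ i = s2 ∨ i = r1 ∨ i = r2) (T : List ℕ) :
    3 * i + 1 ∉ T.map (k2 s1 s2 r1 r2) := by
  intro h
  rw [List.mem_map] at h
  obtain ⟨j, _, hj⟩ := h
  exact k2_z' h1 hj

theorem map_9 (hs : s1 ≠ s2) (T : List ℕ) :
    T.count s1 + T.count s2 ≤ (T.map (k2 s1 s2 r1 r2)).count 9 := by
  induction T with
  | nil => simp
  | cons j T ih =>
    rw [List.map_cons, List.count_cons, List.count_cons, List.count_cons]
    by_cases h1 : j = s1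
    · have h2 : ¬ (j == s2) = true := by rw [beq_iff_eq]; omega
      have h3 : (k2 s1 s2 r1 r2 j == 9) = true := by
        rw [beq_iff_eq]; unfold k2; rw [if_pos (Or.inl h1)]
      rw [if_neg h2, if_pos h3, if_pos (by rw [beq_iff_eq]; exact h1)]
      omega
    · by_cases h4 : j = s2
      · have h3 : (k2 s1 s2 r1 r2 j == 9) = true := by
          rw [beq_iff_eq]; unfold k2; rw [if_pos (Or.inr h4)]
        rw [if_neg (by rw [beq_iff_eq]; exact h1), if_pos h3, if_pos (by rw [beq_iff_eq]; exact h4)]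
        omega
      · rw [if_neg (by rw [beq_iff_eq]; exact h1), if_neg (by rw [beq_iff_eq]; exact h4)]
        omega

theorem map_12 (hs : r1 ≠ r2) (g1 : s1 ≠ r1) (g2 : s1 ≠ r2) (g3 : s2 ≠ r1) (g4 : s2 ≠ r2)
    (T : List ℕ) : T.count r1 + T.count r2 ≤ (T.map (k2 s1 s2 r1 r2)).count 12 := by
  induction T with
  | nil => simp
  | cons j T ih =>
    rw [List.map_cons, List.count_cons, List.count_cons, List.count_cons]
    by_cases h1 : j = r1
    · have h2 : ¬ (j == r2) = true := by rw [beq_iff_eq]; omega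
      have h3 : (k2 s1 s2 r1 r2 j == 12) = true := by
        rw [beq_iff_eq]; unfold k2; rw [if_neg (by omega), if_pos (Or.inl h1)]
      rw [if_neg h2, if_pos h3, if_pos (by rw [beq_iff_eq]; exact h1)]
      omega
    · by_cases h4 : j = r2
      · have h3 : (k2 s1 s2 r1 r2 j == 12) = true := by
          rw [beq_iff_eq]; unfold k2; rw [if_neg (by omega), if_pos (Or.inr h4)]
        rw [if_neg (by rw [beq_iff_eq]; exact h1), if_pos h3, if_pos (by rw [beq_iff_eq]; exact h4)]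
        omega
      · rw [if_neg (by rw [beq_iff_eq]; exact h1), if_neg (by rw [beq_iff_eq]; exact h4)]
        omega

/-- the facts about the word with the main block `L` -/
structure Lf (κ : ℕ → ℕ) (P Q S L : List ℕ) : Prop where
  a : ∀ i ∈ S, i ∈ P ++ Q ∧ κ i = 3 * i + 1 ∧ L.count (3 * i + 1) = 1 ∧
    (Wk κ P Q L).count (3 * i + 1) = 2
  b : ∀ a ∈ L, (∃ i ∈ S, a = 3 * i + 1) ∨ 2 ≤ L.count a ∨ 3 ≤ (Wk κ P Q L).count a
  c9 : 3 ≤ (Wk κ P Q L).count 9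
  c12 : 3 ≤ (Wk κ P Q L).count 12
  c0 : L.count 0 = 2
  c3 : L.count 3 = 2
  m9 : 9 ∈ L
  m12 : 12 ∈ L

theorem Lf.m2 {κ : ℕ → ℕ} {P Q S L : List ℕ} (H : Lf κ P Q S L) :
    ∀ a ∈ L, 2 ≤ (Wk κ P Q L).count a := by
  intro a ha
  rcases H.b a ha with ⟨i, hi, rfl⟩ | h | h
  · exact (H.a i hi).2.2.2.ge
  · rw [wk_eq, List.count_append, List.count_append]
    omega
  · omega

theorem Cx.lf (H : Cx s1 s2 r1 r2 h z P1 P2 P3 Q α) {L : List ℕ} (hL : L.Perm (L00 h z α)) :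
    Lf (k2 s1 s2 r1 r2) (Pf s1 s2 r1 r2 h P1 P2 P3) (Q ++ [z]) (Sf h z P1 P2 P3 Q) L := by
  have hne := H.ne
  have hT := H.nd'
  have hmT : ∀ i, i ∈ Pf s1 s2 r1 r2 h P1 P2 P3 ++ (Q ++ [z]) ↔
      i ∈ (s1 :: s2 :: r1 :: r2 :: h :: z :: ((P1 ++ (P2 ++ P3)) ++ Q)) :=
    fun i => nd_perm.mem_iff
  have hcT : ∀ i, i ∈ Pf s1 s2 r1 r2 h P1 P2 P3 ++ (Q ++ [z]) →
      (Pf s1 s2 r1 r2 h P1 P2 P3 ++ (Q ++ [z])).count i = 1 := fun i hi =>
    List.count_eq_one_of_mem hT hi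
  have hSn : ∀ i ∈ Sf h z P1 P2 P3 Q, i ≠ s1 ∧ i ≠ s2 ∧ i ≠ r1 ∧ i ≠ r2 := by
    intro i hi
    have h1 : i ∈ h :: z :: ((P1 ++ (P2 ++ P3)) ++ Q) := sf_perm.subset hi
    rw [List.mem_cons, List.mem_cons] at h1
    refine ⟨?_, ?_, ?_, ?_⟩
    · rintro rfl
      rcases h1 with h1 | h1 | h1 <;> tauto
    · rintro rfl
      rcases h1 with h1 | h1 | h1 <;> tauto
    · rintro rfl
      rcases h1 with h1 | h1 | h1 <;> tauto
    · rintro rfl
      rcases h1 with h1 | h1 | h1 <;> tauto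
  have hST : ∀ i ∈ Sf h z P1 P2 P3 Q, i ∈ Pf s1 s2 r1 r2 h P1 P2 P3 ++ (Q ++ [z]) := by
    intro i hi
    rw [hmT]
    have h1 : i ∈ h :: z :: ((P1 ++ (P2 ++ P3)) ++ Q) := sf_perm.subset hi
    simp only [List.mem_cons] at h1 ⊢
    tauto
  have e9 : 3 ≤ (Wk (k2 s1 s2 r1 r2) (Pf s1 s2 r1 r2 h P1 P2 P3) (Q ++ [z]) L).count 9 := by
    rw [wk_count _ _ _ _ _ (by omega), hL.count_eq, l00_count, H.a0 9 (by omega) (by omega)]
    have h1 := map_9 (s1 := s1) (s2 := s2) (r1 := r1) (r2 := r2) hne.1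
      (Pf s1 s2 r1 r2 h P1 P2 P3 ++ (Q ++ [z]))
    rw [hcT s1 (by rw [hmT]; simp), hcT s2 (by rw [hmT]; simp)] at h1
    have h2 : ([6, 3, 0, 3, 12, 6, 9, 0] : List ℕ).count 9 = 1 := rfl
    omega
  have e12 : 3 ≤ (Wk (k2 s1 s2 r1 r2) (Pf s1 s2 r1 r2 h P1 P2 P3) (Q ++ [z]) L).count 12 := by
    rw [wk_count _ _ _ _ _ (by omega), hL.count_eq, l00_count, H.a0 12 (by omega) (by omega)]
    have h1 := map_12 (s1 := s1) (s2 := s2) (r1 := r1) (r2 := r2) (by tauto) (by tauto) (by tauto)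
      (by tauto) (by tauto) (Pf s1 s2 r1 r2 h P1 P2 P3 ++ (Q ++ [z]))
    rw [hcT r1 (by rw [hmT]; simp), hcT r2 (by rw [hmT]; simp)] at h1
    have h2 : ([6, 3, 0, 3, 12, 6, 9, 0] : List ℕ).count 12 = 1 := rfl
    omega
  refine ⟨?_, ?_, e9, e12, ?_, ?_, ?_, ?_⟩
  · intro i hi
    obtain ⟨g1, g2, g3, g4⟩ := hSn i hi
    have hc : L.count (3 * i + 1) = 1 := by rw [hL.count_eq, H.cS hi]
    refine ⟨hST i hi, (k2_z g1 g2 g3 g4).mpr rfl, hc, ?_⟩
    rw [wk_count _ _ _ _ _ (by omega), map_z g1 g2 g3 g4, hcT i (hST i hi), hc]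
  · intro a ha
    have ha' : a ∈ L00 h z α := hL.subset ha
    have hc : L.count a = (L00 h z α).count a := hL.count_eq a
    unfold L00 at ha'
    simp only [List.mem_cons, List.mem_append, List.not_mem_nil, or_false] at ha'
    have hz : z ∈ Sf h z P1 P2 P3 Q := by unfold Sf; simp
    have hh : h ∈ Sf h z P1 P2 P3 Q := by unfold Sf; simp
    rcases ha' with rfl | rfl | rfl | rfl | ha' | rfl | rfl | rfl | rfl | rfl | rfl
    · right; left; rw [hc, H.c6]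
    · right; left; rw [hc, H.c3]
    · left; exact ⟨z, hz, rfl⟩
    · right; left; rw [hc, H.c0]
    · have h3 : a % 3 = 0 ∨ a % 3 = 1 ∨ a % 3 = 2 := by omega
      rcases h3 with h3 | h3 | h3
      · right; left
        have h4 := (H.can.lc a ha' h3).1
        rw [hc, l00_count]
        omega
      · left
        obtain ⟨i, hi, e⟩ := H.can.ps a ha' h3
        refine ⟨i, sf_perm.symm.subset ?_, e⟩
        exact List.mem_cons_of_mem _ (List.mem_cons_of_mem _ hi)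
      · exact absurd h3 (H.can.sf a ha')
    · right; left; rw [hc, H.c3]
    · right; right; exact e12
    · right; left; rw [hc, H.c6]
    · left; exact ⟨h, hh, rfl⟩
    · right; right; exact e9
    · right; left; rw [hc, H.c0]
  · rw [hL.count_eq, H.c0]
  · rw [hL.count_eq, H.c3]
  · apply hL.symm.subset
    unfold L00
    simp
  · apply hL.symm.subset
    unfold L00
    simp

/-- the letters of the places of `9` and `12` do not occur -/
theorem Cx.no (H : Cx s1 s2 r1 r2 h z P1 P2 P3 Q α) {i : ℕ}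
    (hi : i ∈ Pf s1 s2 r1 r2 h P1 P2 P3 ++ (Q ++ [z])) (hS : i ∉ Sf h z P1 P2 P3 Q) :
    3 * i + 1 ∉ Wk (k2 s1 s2 r1 r2) (Pf s1 s2 r1 r2 h P1 P2 P3) (Q ++ [z]) (L00 h z α) := by
  have hne := H.ne
  have h1 : i ∈ (s1 :: s2 :: r1 :: r2 :: h :: z :: ((P1 ++ (P2 ++ P3)) ++ Q)) :=
    nd_perm.subset hi
  have h2 : i ∉ h :: z :: ((P1 ++ (P2 ++ P3)) ++ Q) := fun h3 => hS (sf_perm.symm.subset h3)
  simp only [List.mem_cons, not_or] at h1 h2
  have h3 : i = s1 ∨ i = s2 ∨ i = r1 ∨ i = r2 := by tauto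
  rw [← List.count_eq_zero, wk_count _ _ _ _ _ (by omega), List.count_eq_zero_of_not_mem (map_z' h3 _),
    l00_count, H.az h2.2.2, nz_count]
  have h4 : ([3 * z + 1, 3 * h + 1] : List ℕ).count (3 * i + 1) = 0 := by
    rw [List.count_eq_zero]
    simp only [List.mem_cons, List.not_mem_nil, or_false, not_or]
    omega
  omega

theorem not_btw {L X Y : List ℕ} {g c : ℕ} (h1 : L.count c = 1) (hL : L = X ++ c :: Y)
    (h2 : g ∉ X ∨ g ∉ Y) : ¬ Btw g c L := by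
  rintro ⟨a, b, d, e, hc⟩
  obtain ⟨b1, b2, hb⟩ := List.append_of_mem hc
  have e2 : L = (a ++ g :: b1) ++ c :: (b2 ++ g :: d) := by
    rw [e, hb]
    simp
  obtain ⟨h3, h4⟩ := split_uniq h1 hL e2
  rcases h2 with h2 | h2
  · apply h2
    rw [h3]
    simp
  · apply h2
    rw [h4]
    simp

end

end Pool.Agent.MVD.H88
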