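import Pool.Agent.Helper88_MVD.EPNb

/-!
Squad MVD, row EPN, part 3: the exchanges.
-/

set_option autoImplicit false

namespace Pool.Agent.MVD.H88

open Pool.Agent.Helper14_MV Pool.Agent.Helper2_MV Pool.Agent.MVD

/-- a state -/
structure St (x2 : ℕ) (P Q S u : List ℕ) (B : ℕ → List ℕ) : Prop where
  sf : ∀ r, SFr (B r)
  eq : u = Bw (lab P Q) B
  h2 : ∀ i ∈ S, (B 0).count (3 * i + 1) = 1 ∧ (B (i + 1)).count (3 * i + 1) = 1 ∧
    u.count (3 * i + 1) = 2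
  h3 : ∀ r ∈ lab P Q, r ≠ 0 → ∀ a ∈ B r, a = x2 ∨ a = 3 * (r - 1) + 1
  h4 : (B 0).count x2 = 1
  h5 : ∀ a ∈ B 0, a ≠ x2 → (∃ i ∈ S, a = 3 * i + 1) ∨ ((B 0).count a = 2 ∧ u.count a = 2)
  h6 : ∀ i ∈ P ++ Q, i ∉ S → 3 * i + 1 ∉ u

theorem coreS (hFAC : FacStmt) {κ : ℕ → ℕ} {P Q L S M N u : List ℕ} {φ : ℕ → List ℕ}
    {B : ℕ → List ℕ} {x2 : ℕ} (hnd : (P ++ Q).Nodup) (hL : Lf κ P Q S L) (hSt : St x2 P Q S u B)
    (hu : M ++ ((Wk κ P Q L).flatMap φ ++ N) = u)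
    {a b : ℕ} (ha : L.count a = 2) (hb : b ∈ L) (hb3 : 3 ≤ (Wk κ P Q L).count b) :
    φ a ++ φ b = φ b ++ φ a ∨
      (φ b = [x2] ∧ φ a ≠ [] ∧ ∃ pa pc, B 0 = pa ++ (L.flatMap φ ++ pc)) := by
  obtain ⟨sf, eq, h2, h3, h4, h5, h6⟩ := hSt
  rw [eq] at hu h2 h5 h6
  exact core hFAC hnd hL.m2 sf hu h2 h3 h4 h5 h6 ha.ge hb hb3

theorem cntS (hCNT : CntStmt) {κ : ℕ → ℕ} {P Q L S M N u : List ℕ} {φ : ℕ → List ℕ}
    {B : ℕ → List ℕ} {x2 : ℕ} (hnd : (P ++ Q).Nodup) (hL : Lf κ P Q S L) (hSt : St x2 P Q S u B)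
    (hu : M ++ ((Wk κ P Q L).flatMap φ ++ N) = u) {g d : ℕ} (hg : L.count g = 2)
    (hd : φ g = [d]) (hd0 : d ∈ B 0) (hdx : d ≠ x2) (hd3 : d % 3 ≠ 1) :
      ((∀ i ∈ S, i ∈ P → Btw d (3 * i + 1) (B 0)) →
        ∀ i ∈ S, i ∈ P → Btw g (3 * i + 1) L ∧ 3 * i + 1 ∈ φ (3 * i + 1)) ∧
      ((∀ i ∈ S, i ∈ Q → Btw d (3 * i + 1) (B 0)) →
        ∀ i ∈ S, i ∈ Q → Btw g (3 * i + 1) L ∧ 3 * i + 1 ∈ φ (3 * i + 1)) := by
  obtain ⟨sf, eq, h2, h3, h4, h5, h6⟩ := hSt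
  have h7 : (B 0).count d = 2 ∧ u.count d = 2 := by
    rcases h5 d hd0 hdx with ⟨i, _, hi⟩ | h
    · omega
    · exact h
  rw [eq] at hu h2 h7
  refine hCNT κ P Q L S φ M N B [] g d 2 hnd hL.a hL.b (fun r _ => sf r) (by intro c hc; simp at hc)
    ?_ ?_ (le_refl 2) hg (by rw [hd]; simp) ?_ h7.1
  · intro i hi
    rw [List.append_nil]
    exact h2 i hi
  · rw [List.append_nil]
    exact hu
  · rw [List.append_nil]
    exact h7.2

/-- a passive is not in the image of a letter which occurs twice -/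
theorem no_z {P Q L S u pa pc : List ℕ} {φ : ℕ → List ℕ}
    {B : ℕ → List ℕ} {x2 : ℕ} (hSt : St x2 P Q S u B) (hB : B 0 = pa ++ (L.flatMap φ ++ pc))
    {a i : ℕ} (ha : L.count a = 2) (hi : i ∈ S) : 3 * i + 1 ∉ φ a := by
  intro h
  have h1 := flat_count_ge φ h L
  have h2 := (hSt.h2 i hi).1
  rw [hB, List.count_append, List.count_append] at h2
  omega

theorem pre_one {w X : List ℕ} {x : ℕ} (hw : w ≠ []) (h : w ++ X = [x]) : w = [x] := by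
  cases w with
  | nil => exact absurd rfl hw
  | cons y t =>
    rw [List.cons_append, List.cons.injEq] at h
    have : t = [] := (List.append_eq_nil_iff.mp h.2).1
    rw [h.1, this]

section

variable {κ : ℕ → ℕ} {P Q S M N u X Y A : List ℕ} {φ : ℕ → List ℕ} {B : ℕ → List ℕ} {h : ℕ}

/-- exchange of `3` and `12`, first case -/
theorem useA (hFAC : FacStmt) (hnd : (P ++ Q).Nodup) (hL : Lf κ P Q S (X ++ 3 :: 12 :: Y))
    (hSt : St 9 P Q S u B)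
    (hu : M ++ ((Wk κ P Q (X ++ 3 :: 12 :: Y)).flatMap φ ++ N) = u) (hh : h ∈ S)
    (hA : B 0 = A ++ [3 * h + 1, 9, 0]) : φ 3 ++ φ 12 = φ 12 ++ φ 3 := by
  rcases coreS hFAC hnd hL hSt hu hL.c3 hL.m12 hL.c12 with h1 | ⟨h1, h2, pa, pc, h3⟩
  · exact h1
  exfalso
  have e1 : B 0 = ((pa ++ X.flatMap φ) ++ φ 3) ++ 9 :: (Y.flatMap φ ++ pc) := by
    rw [h3, List.flatMap_append, List.flatMap_cons, List.flatMap_cons, h1]
    simp
  have e2 : B 0 = (A ++ [3 * h + 1]) ++ 9 :: [0] := by rw [hA]; simp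
  obtain ⟨w', e3, -⟩ := last_mem h2 (split_uniq hSt.h4 e1 e2).1
  refine no_z hSt h3 hL.c3 hh ?_
  rw [e3]
  simp

/-- exchange of `3` and `12`, second case -/
theorem useB (hFAC : FacStmt) (hCNT : CntStmt) (hnd : (P ++ Q).Nodup)
    (hL : Lf κ P Q S (X ++ 12 :: 3 :: Y))
    (hSt : St 9 P Q S u B)
    (hu : M ++ ((Wk κ P Q (X ++ 12 :: 3 :: Y)).flatMap φ ++ N) = u) (hh : h ∈ S) (hP : h ∈ P)
    (hA : B 0 = A ++ [3 * h + 1, 9, 0]) (hb : ∀ i ∈ S, i ∈ P → Btw 0 (3 * i + 1) (B 0))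
    (hn : ¬ Btw 3 (3 * h + 1) (X ++ 12 :: 3 :: Y)) : φ 3 ++ φ 12 = φ 12 ++ φ 3 := by
  rcases coreS hFAC hnd hL hSt hu hL.c3 hL.m12 hL.c12 with h1 | ⟨h1, h2, pa, pc, h3⟩
  · exact h1
  exfalso
  have e1 : B 0 = (pa ++ X.flatMap φ) ++ 9 :: (φ 3 ++ (Y.flatMap φ ++ pc)) := by
    rw [h3, List.flatMap_append, List.flatMap_cons, List.flatMap_cons, h1]
    simp
  have e2 : B 0 = (A ++ [3 * h + 1]) ++ 9 :: [0] := by rw [hA]; simp
  have e3 := pre_one h2 (split_uniq hSt.h4 e1 e2).2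
  have e4 := (cntS hCNT hnd hL hSt hu hL.c3 e3 (by rw [hA]; simp) (by omega) (by omega)).1 hb h hh hP
  exact hn e4.1

/-- exchange of `9` and `0` in `C`, first case -/
theorem useC (hFAC : FacStmt) (hCNT : CntStmt) {f z : ℕ} (hnd : (P ++ Q).Nodup)
    (hL : Lf κ P Q S (X ++ [9, 0])) (hSt : St 12 P Q S u B)
    (hu : M ++ ((Wk κ P Q (X ++ [9, 0])).flatMap φ ++ N) = u) (hh : h ∈ S) (hz : z ∈ S)
    (hQ : z ∈ Q)
    (hA : B 0 = A ++ [3 * f + 1, 3, 12, 6, 3 * h + 1, 0])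
    (hb : ∀ i ∈ S, i ∈ Q → Btw 6 (3 * i + 1) (B 0))
    (hn : ¬ Btw 0 (3 * z + 1) (X ++ [9, 0])) : φ 0 ++ φ 9 = φ 9 ++ φ 0 := by
  rcases coreS hFAC hnd hL hSt hu hL.c0 hL.m9 hL.c9 with h1 | ⟨h1, h2, pa, pc, h3⟩
  · exact h1
  exfalso
  have e1 : B 0 = (pa ++ X.flatMap φ) ++ 12 :: (φ 0 ++ pc) := by
    rw [h3, List.flatMap_append, List.flatMap_cons, List.flatMap_cons, h1]
    simp
  have e2 : B 0 = (A ++ [3 * f + 1, 3]) ++ 12 :: [6, 3 * h + 1, 0] := by rw [hA]; simp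
  have e3 := (split_uniq hSt.h4 e1 e2).2
  have hz0 := no_z hSt h3 hL.c0 hh
  have e4 : φ 0 = [6] := by
    cases hp : φ 0 with
    | nil => exact absurd hp h2
    | cons y t =>
      rw [hp, List.cons_append, List.cons.injEq] at e3
      rw [e3.1]
      cases t with
      | nil => rfl
      | cons y' t' =>
        exfalso
        have e5 := e3.2
        rw [List.cons_append, List.cons.injEq] at e5
        apply hz0
        rw [hp, ← e5.1]
        simp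
  have e5 := (cntS hCNT hnd hL hSt hu hL.c0 e4 (by rw [hA]; simp) (by omega) (by omega)).2 hb z hz hQ
  exact hn e5.1

/-- exchange of `9` and `0` in `C`, second case -/
theorem useD (hFAC : FacStmt) (hCNT : CntStmt) {f z : ℕ} (hnd : (P ++ Q).Nodup)
    (hL : Lf κ P Q S (X ++ [0, 9])) (hSt : St 12 P Q S u B)
    (hu : M ++ ((Wk κ P Q (X ++ [0, 9])).flatMap φ ++ N) = u) (hf : f ∈ S) (hz : z ∈ S)
    (hQ : z ∈ Q)
    (hA : B 0 = A ++ [3 * f + 1, 3, 12, 6, 3 * h + 1, 0])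
    (hb : ∀ i ∈ S, i ∈ Q → Btw 3 (3 * i + 1) (B 0))
    (hn : ¬ Btw 0 (3 * z + 1) (X ++ [0, 9])) : φ 0 ++ φ 9 = φ 9 ++ φ 0 := by
  rcases coreS hFAC hnd hL hSt hu hL.c0 hL.m9 hL.c9 with h1 | ⟨h1, h2, pa, pc, h3⟩
  · exact h1
  exfalso
  have e1 : B 0 = ((pa ++ X.flatMap φ) ++ φ 0) ++ 12 :: pc := by
    rw [h3, List.flatMap_append, List.flatMap_cons, List.flatMap_cons, h1]
    simp
  have e2 : B 0 = ((A ++ [3 * f + 1]) ++ [3]) ++ 12 :: [6, 3 * h + 1, 0] := by rw [hA]; simp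
  obtain ⟨w', e3, e3'⟩ := last_mem h2 (split_uniq hSt.h4 e1 e2).1
  have e4 : w' = [] := by
    by_contra hw
    obtain ⟨w'', e5, -⟩ := last_mem hw e3'
    refine no_z hSt h3 hL.c0 hf ?_
    rw [e3, e5]
    simp
  have e6 : φ 0 = [3] := by rw [e3, e4]; rfl
  have e5 := (cntS hCNT hnd hL hSt hu hL.c0 e6 (by rw [hA]; simp) (by omega) (by omega)).2 hb z hz hQ
  exact hn e5.1

/-- exchange of `9` and `0` in `B`, first case -/
theorem useE (hFAC : FacStmt) (hnd : (P ++ Q).Nodup)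
    (hL : Lf κ P Q S (X ++ [0, 9])) (hSt : St 9 P Q S u B)
    (hu : M ++ ((Wk κ P Q (X ++ [0, 9])).flatMap φ ++ N) = u) (hh : h ∈ S)
    (hA : B 0 = A ++ [3 * h + 1, 9, 0]) : φ 0 ++ φ 9 = φ 9 ++ φ 0 := by
  rcases coreS hFAC hnd hL hSt hu hL.c0 hL.m9 hL.c9 with h1 | ⟨h1, h2, pa, pc, h3⟩
  · exact h1
  exfalso
  have e1 : B 0 = ((pa ++ X.flatMap φ) ++ φ 0) ++ 9 :: pc := by
    rw [h3, List.flatMap_append, List.flatMap_cons, List.flatMap_cons, h1]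
    simp
  have e2 : B 0 = (A ++ [3 * h + 1]) ++ 9 :: [0] := by rw [hA]; simp
  obtain ⟨w', e3, -⟩ := last_mem h2 (split_uniq hSt.h4 e1 e2).1
  refine no_z hSt h3 hL.c0 hh ?_
  rw [e3]
  simp

/-- exchange of `9` and `0` in `B`, second case -/
theorem useF (hFAC : FacStmt) (hCNT : CntStmt) (hnd : (P ++ Q).Nodup)
    (hL : Lf κ P Q S (X ++ [9, 0])) (hSt : St 9 P Q S u B)
    (hu : M ++ ((Wk κ P Q (X ++ [9, 0])).flatMap φ ++ N) = u)
    (hA : B 0 = A ++ [3 * h + 1, 9, 0]) (hb : ∀ i ∈ S, i ∈ P → Btw 0 (3 * i + 1) (B 0)) :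
    φ 0 ++ φ 9 = φ 9 ++ φ 0 ∨ ∀ i ∈ S, i ∈ P → 3 * i + 1 ∈ φ (3 * i + 1) := by
  rcases coreS hFAC hnd hL hSt hu hL.c0 hL.m9 hL.c9 with h1 | ⟨h1, h2, pa, pc, h3⟩
  · exact Or.inl h1
  right
  have e1 : B 0 = (pa ++ X.flatMap φ) ++ 9 :: (φ 0 ++ pc) := by
    rw [h3, List.flatMap_append, List.flatMap_cons, List.flatMap_cons, h1]
    simp
  have e2 : B 0 = (A ++ [3 * h + 1]) ++ 9 :: [0] := by rw [hA]; simp
  have e3 := pre_one h2 (split_uniq hSt.h4 e1 e2).2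
  have e4 := (cntS hCNT hnd hL hSt hu hL.c0 e3 (by rw [hA]; simp) (by omega) (by omega)).1 hb
  exact fun i hi hi' => (e4 i hi hi').2

/-- the image of a passive stands twice in the word -/
theorem twice {L : List ℕ} {i : ℕ} (hP : i ∈ P) (hκ : κ i = 3 * i + 1) (hL : 3 * i + 1 ∈ L) :
    ∃ X1 X2 X3, M ++ ((Wk κ P Q L).flatMap φ ++ N) =
      X1 ++ (φ (3 * i + 1) ++ (X2 ++ (φ (3 * i + 1) ++ X3))) := by
  obtain ⟨Pa, Pb, hp⟩ := List.append_of_mem hP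
  obtain ⟨La, Lb, hl⟩ := List.append_of_mem hL
  refine ⟨M ++ (pk κ Pa).flatMap φ, ((3 * (i + 1) + 2) :: pk κ Pb ++ La).flatMap φ,
    (Lb ++ 2 :: pk κ Q).flatMap φ ++ N, ?_⟩
  rw [wk_eq, hp, hl, pk_append, pk_cons, hκ]
  simp only [List.flatMap_append, List.flatMap_cons, List.append_assoc]

theorem lab_mem {i : ℕ} (h1 : i ∈ P ++ Q) : i + 1 ∈ lab P Q := by
  unfold lab
  rw [List.mem_append, List.mem_cons, List.mem_map, List.mem_map]
  rw [List.mem_append] at h1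
  rcases h1 with h1 | h1
  · exact Or.inl ⟨i, h1, rfl⟩
  · exact Or.inr (Or.inr ⟨i, h1, rfl⟩)

/-- the letters of the image of a passive -/
theorem img_z (hSNG : SngStmt) {L : List ℕ} {x2 : ℕ} (hnd : (P ++ Q).Nodup) (hL : Lf κ P Q S L)
    (hSt : St x2 P Q S u B) (hu : M ++ ((Wk κ P Q L).flatMap φ ++ N) = u) {i : ℕ} (hi : i ∈ S)
    (hP : i ∈ P) (hz : 3 * i + 1 ∈ φ (3 * i + 1)) :
    ∀ a ∈ φ (3 * i + 1), a = x2 ∨ a = 3 * i + 1 := by
  obtain ⟨g1, g2, g3, -⟩ := hL.a i hi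
  obtain ⟨X1, X2, X3, e⟩ := twice (κ := κ) (P := P) (Q := Q) (M := M) (N := N) (φ := φ) hP g2
    (L := L) (List.count_pos_iff.mp (by omega))
  obtain ⟨k1, k2, k3⟩ := hSt.h2 i hi
  intro a ha
  have h1 := hSNG P Q B [] i X1 (φ (3 * i + 1)) X2 X3 hnd (fun r _ => hSt.sf r)
    (by intro c hc; simp at hc) g1 k1 k2 (by rw [List.append_nil, ← hSt.eq]; exact k3)
    (by rw [List.append_nil, ← hSt.eq, ← hu, e]) hz a ha
  have h2 := hSt.h3 (i + 1) (lab_mem g1) (by omega) a h1.1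
  simpa using h2

/-- the last step: the word `V01` -/
theorem fin01 (hFAC : FacStmt) (hSNG : SngStmt) {Z : List ℕ} {f : ℕ} (hnd : (P ++ Q).Nodup)
    (hL : Lf κ P Q S (X ++ (3 * f + 1) :: ([12, 3, 6] ++ (3 * h + 1) :: Z)))
    (h6 : (X ++ (3 * f + 1) :: ([12, 3, 6] ++ (3 * h + 1) :: Z)).count 6 = 2)
    (hSt : St 12 P Q S u B)
    (hu : M ++ ((Wk κ P Q (X ++ (3 * f + 1) :: ([12, 3, 6] ++ (3 * h + 1) :: Z))).flatMap φ ++ N) =
      u)
    (hf : f ∈ S) (hfP : f ∈ P) (hh : h ∈ S) (hhP : h ∈ P) (hfh : f ≠ h)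
    (hA : B 0 = A ++ [3 * f + 1, 3, 12, 6, 3 * h + 1, 0])
    (hzf : 3 * f + 1 ∈ φ (3 * f + 1)) (hzh : 3 * h + 1 ∈ φ (3 * h + 1)) : False := by
  set L := X ++ (3 * f + 1) :: ([12, 3, 6] ++ (3 * h + 1) :: Z) with hLdef
  have mf : 3 * f + 1 ∈ L := by rw [hLdef]; simp
  have mh : 3 * h + 1 ∈ L := by rw [hLdef]; simp
  have cf : 3 * f + 1 ∈ L.flatMap φ := List.mem_flatMap.mpr ⟨_, mf, hzf⟩
  have ch : 3 * h + 1 ∈ L.flatMap φ := List.mem_flatMap.mpr ⟨_, mh, hzh⟩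
  have hF : L.flatMap φ ≠ [] := by
    intro h0
    rw [h0] at cf
    simp at cf
  have hu' : M ++ ((Wk κ P Q L).flatMap φ ++ N) = Bw (lab P Q) B := by rw [hu, hSt.eq]
  have hs := img_sfr hnd hL.m2 hSt.sf hu'
  have hu2 : Bw (lab P Q) B = (M ++ (pk κ P).flatMap φ) ++
      (L.flatMap φ ++ ((2 :: pk κ Q).flatMap φ ++ N)) := by
    rw [← hu', wk_eq, List.flatMap_append, List.flatMap_append]
    simp only [List.append_assoc]
  obtain ⟨R1, r, R2, pa, pc, e1, e2, -, -⟩ := hFAC (lab P Q) B _ _ _ (fun r _ => hSt.sf r) hs hF hu2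
  have hr : r ∈ lab P Q := by rw [e1]; simp
  have hr0 : r = 0 := by
    by_contra hr0
    have h7 := hSt.h3 r hr hr0 (3 * f + 1) (by rw [e2]; simp [cf])
    have h8 := hSt.h3 r hr hr0 (3 * h + 1) (by rw [e2]; simp [ch])
    omega
  subst hr0
  obtain ⟨g1, g2, hg⟩ := List.append_of_mem hzf
  obtain ⟨k1, k2, hk⟩ := List.append_of_mem hzh
  have e3 : B 0 = (pa ++ (X.flatMap φ ++ g1)) ++ (3 * f + 1) :: ((g2 ++ (φ 12 ++ (φ 3 ++
      (φ 6 ++ k1)))) ++ (3 * h + 1) :: (k2 ++ (Z.flatMap φ ++ pc))) := by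
    rw [e2, hLdef]
    simp only [List.flatMap_append, List.flatMap_cons, List.flatMap_nil, hg, hk, List.append_assoc,
      List.cons_append, List.nil_append, List.append_nil]
  have e4 : B 0 = A ++ (3 * f + 1) :: ([3, 12, 6] ++ (3 * h + 1) :: [0]) := by rw [hA]; simp
  have e5 := (split_uniq (hSt.h2 f hf).1 e3 e4).2
  have c1 : ([3, 12, 6] ++ (3 * h + 1) :: [0] : List ℕ).count (3 * h + 1) = 1 := by
    have n1 : ((3 : ℕ) == 3 * h + 1) = false := by rw [beq_eq_false_iff_ne]; omega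
    have n2 : ((12 : ℕ) == 3 * h + 1) = false := by rw [beq_eq_false_iff_ne]; omega
    have n3 : ((6 : ℕ) == 3 * h + 1) = false := by rw [beq_eq_false_iff_ne]; omega
    have n4 : ((0 : ℕ) == 3 * h + 1) = false := by rw [beq_eq_false_iff_ne]; omega
    simp [List.count_cons, n1, n2, n3]
  have e6 := (split_uniq c1 rfl e5.symm).1
  -- `e6 : [3, 12, 6] = g2 ++ ...`
  have zf := img_z hSNG hnd hL hSt hu hf hfP hzf
  have zh := img_z hSNG hnd hL hSt hu hh hhP hzh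
  have g20 : g2 = [] := by
    cases g2 with
    | nil => rfl
    | cons y t =>
      exfalso
      rw [List.cons_append, List.cons.injEq] at e6
      have := zf y (by rw [hg]; simp)
      omega
  rw [g20, List.nil_append] at e6
  have p12 : φ 12 = [] := by
    cases hp : φ 12 with
    | nil => rfl
    | cons y t =>
      exfalso
      rw [hp, List.cons_append, List.cons.injEq] at e6
      have hy : y ∈ φ 12 := by rw [hp]; simp
      have h7 := flat_count_ge φ hy (Wk κ P Q L)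
      have h8 := hL.c12
      have h9 : y ∈ B 0 := by
        rw [e2]
        have : y ∈ L.flatMap φ := List.mem_flatMap.mpr ⟨12, hL.m12, hy⟩
        simp [this]
      have h10 : u.count y = ((Wk κ P Q L).flatMap φ).count y + M.count y + N.count y := by
        rw [← hu, List.count_append, List.count_append]
        omega
      rcases hSt.h5 y h9 (by omega) with ⟨i, hi, hi'⟩ | h11
      · omega
      · omega
  rw [p12, List.nil_append] at e6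
  have k10 : k1 = [] := by
    by_contra hk1
    have e7 : (φ 3 ++ φ 6) ++ k1 = [3, 12] ++ [6] := by
      rw [List.append_assoc]
      exact e6.symm
    obtain ⟨w', e8, -⟩ := last_mem hk1 e7
    have := zh 6 (by rw [hk, e8]; simp)
    omega
  rw [k10, List.append_nil] at e6
  have m12 : (12 : ℕ) ∈ φ 3 ++ φ 6 := by rw [← e6]; simp
  have h7 : (B 0).count 12 = pa.count 12 + ((L.flatMap φ).count 12 + pc.count 12) := by
    rw [e2, List.count_append, List.count_append]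
  have h8 := hSt.h4
  rw [List.mem_append] at m12
  rcases m12 with h9 | h9
  · have h10 := flat_count_ge φ h9 L
    have h11 := hL.c3
    omega
  · have h10 := flat_count_ge φ h9 L
    omega

end

end Pool.Agent.MVD.H88
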